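import Pool.Agent.V8H91.TC.Mul

/-!
# One quartic class: the final statement for the Tate conjecture
-/

set_option autoImplicit false
set_option linter.unusedSectionVars false

namespace Pool.Agent.V8H91.TC

open Module TensorProduct Pool.Agent.H204R3.SP Pool.Agent.H204R3.GP Pool.Agent.W516.KC
  Pool.Agent.W516.MTD Pool.Agent.W516.DR Pool.Agent.W516 Pool.Agent.V8H91.MT

noncomputable section

section

variable {k : Type} [Field k] [CharZero k] {W T : Type} [AddCommGroup W] [Module ℚ W]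
  [FiniteDimensional ℚ W] [AddCommGroup T] [Module ℂ T] (per : W →+ T)
  {Γ : Type} [Group Γ] (ρ : Representation k Γ (k ⊗[ℚ] W)) (χ : Γ →* k)
  (ω₀ : W →ₗ[ℚ] W →ₗ[ℚ] ℚ) (ω : k ⊗[ℚ] W →ₗ[k] k ⊗[ℚ] W →ₗ[k] k)
  (hper : MTD.IsRationalStructure per) (hR : IsRiemannForm per ω₀)
  (hωω : ∀ u v : W, ω ((1 : k) ⊗ₜ[ℚ] u) ((1 : k) ⊗ₜ[ℚ] v) = algebraMap ℚ k (ω₀ u v))
  (hωρ : ∀ s u v, ω (ρ s u) (ρ s v) = χ s * ω u v)
  (hD : Deligne per ρ χ) (hC : Centres per ρ χ)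
  (hcomm : ∀ P : Module.End k (k ⊗[ℚ] W), (∀ X ∈ lieT ρ χ, X * P = P * X) → P ∈ endos k per)
  (hnt : KC2.TraceNondeg (lieT ρ χ))

include hper hR hωω hωρ hD hC hcomm in
/-- If the rational endomorphisms that kill the Hodge classes kill the quartic class then all Tate
classes are combinations of Hodge classes. -/
theorem all_of_kills (hΘ : ∀ Z₀ : Module.End ℚ W, (∀ (m' : ℕ)
      (ψ : MultilinearMap ℚ (fun _ : Fin m' × Fin 2 => W) ℚ), IsHodgeTensor per ψ →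
        Kills Z₀ ψ) → Kills (Z₀.baseChange k) (KC2.casimir (lieT ρ χ) hnt ω)) (m : ℕ)
    (φ : MultilinearMap k (fun _ : Fin m × Fin 2 => k ⊗[ℚ] W) k)
    (hφ : IsTateTensor ρ χ m φ) : MTD.IsHodgeCombination per φ := by
  have hnd₀ := MTM.riemann_nondeg per ω₀ hper hR
  have hnd := nondeg_ext ω₀ ω hωω hnd₀
  have hRH := MTM.riemann_hodge per ω₀ hR
  have hmem : ∀ Z₀ : Module.End ℚ W, (∀ (m' : ℕ)
      (ψ : MultilinearMap ℚ (fun _ : Fin m' × Fin 2 => W) ℚ), IsHodgeTensor per ψ →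
        Kills Z₀ ψ) → Z₀.baseChange k ∈ lieT ρ χ := by
    intro Z₀ hk
    have hZs : IsSkew ω (Z₀.baseChange k) :=
      skew_ext ω₀ ω hωω ((kills_one2 ω₀ Z₀).1 (hk 1 _ (one2_hodge per ω₀ hRH)))
    have hZk : Kills (Z₀.baseChange k) (KC2.casimir (lieT ρ χ) hnt ω) := hΘ Z₀ hk
    obtain ⟨Y, hY, hYc⟩ := KC2.mem_of_kills_casimir (lieT ρ χ) hnt ω
      (fun X hX Y hY => lieT_bracket ρ χ hX hY) hnd hZs hZk
    have h1 : Z₀.baseChange k - Y ∈ lieT ρ χ := by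
      refine hC _ (hcomm _ hYc) (fun P hP => ?_) (fun m φ hφ => ?_)
      · have e1 := MTM.comm_endos per ω₀ hper hR Z₀ hk hP
        have e2 := MTM.lieT_comm per ρ χ ω₀ ω hper hR hωω hωρ hD hY hP
        refine LinearMap.ext fun z => ?_
        have e3 := congrArg (fun f : Module.End k (k ⊗[ℚ] W) => f z) e1
        have e4 := congrArg (fun f : Module.End k (k ⊗[ℚ] W) => f z) e2
        simp only [Module.End.mul_apply] at e3 e4
        rw [Module.End.mul_apply, Module.End.mul_apply, LinearMap.sub_apply, LinearMap.sub_apply,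
          map_sub, e3, e4]
      · have h2 := kills_span (fun ψ => IsHodgeTensor per ψ) Z₀ (hk m) φ
          ((MTM.hc_iff per φ).1 hφ)
        have h3 := MTM.lieT_hc per ρ χ hD hY φ hφ
        intro v
        have h4 : ∀ j, φ (Function.update v j ((Z₀.baseChange k - Y) (v j))) =
            φ (Function.update v j (Z₀.baseChange k (v j))) -
              φ (Function.update v j (Y (v j))) := by
          intro j
          rw [LinearMap.sub_apply, MultilinearMap.map_update_sub]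
        rw [Finset.sum_congr rfl (fun j _ => h4 j), Finset.sum_sub_distrib, h2 v, h3 v, sub_zero]
    have h2 : Z₀.baseChange k = (Z₀.baseChange k - Y) + Y := by abel
    rw [h2]
    exact Submodule.add_mem _ h1 hY
  rw [MTM.hc_iff]
  refine form_mem_span (fun ψ => IsHodgeTensor per ψ) φ fun lam => ?_
  refine hodge_of_kills per hper _ fun Z₀ hk => ?_
  exact kills_fcmp lam φ Z₀ (hmem Z₀ hk m φ hφ)

include hper hR hωω hωρ hD hC hcomm hnt in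
/-- If all Tate classes in one degree `m ≥ 2` are combinations of Hodge classes then this is true in
all degrees. -/
theorem all_of_degree (n : ℕ) (h : ∀ φ : MultilinearMap k (fun _ : Fin (2 + n) × Fin 2 =>
      k ⊗[ℚ] W) k, IsTateTensor ρ χ (2 + n) φ → MTD.IsHodgeCombination per φ) (m : ℕ)
    (φ : MultilinearMap k (fun _ : Fin m × Fin 2 => k ⊗[ℚ] W) k)
    (hφ : IsTateTensor ρ χ m φ) : MTD.IsHodgeCombination per φ := by
  refine all_of_kills per ρ χ ω₀ ω hper hR hωω hωρ hD hC hcomm hnt (fun Z₀ hk => ?_) m φ hφ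
  have hnd₀ := MTM.riemann_nondeg per ω₀ hper hR
  have hnd := nondeg_ext ω₀ ω hωω hnd₀
  have hRH := MTM.riemann_hodge per ω₀ hR
  have hZs : IsSkew ω (Z₀.baseChange k) :=
    skew_ext ω₀ ω hωω ((kills_one2 ω₀ Z₀).1 (hk 1 _ (one2_hodge per ω₀ hRH)))
  have ht : IsTateTensor ρ χ 2 (KC2.casimir (lieT ρ χ) hnt ω) :=
    ⟨⊤, inferInstance, fun s _ v => casimir_equi ρ χ ω hωρ hnt s v⟩
  have h1 := h _ (tate_mulOmN ω ρ χ hωρ ht n)
  have h2 : Kills (Z₀.baseChange k) (mulOmN ω (KC2.casimir (lieT ρ χ) hnt ω) n) :=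
    kills_span (fun ψ => IsHodgeTensor per ψ) Z₀ (hk (2 + n)) _ ((MTM.hc_iff per _).1 h1)
  by_cases hV : ∃ x y, ω x y ≠ 0
  · obtain ⟨x, y, hxy⟩ := hV
    exact kills_mulOmN ω hZs hxy n h2
  · push Not at hV
    have h3 : ∀ x : k ⊗[ℚ] W, x = 0 := fun x => hnd x (hV x)
    intro v
    refine Finset.sum_eq_zero fun j _ => ?_
    rw [h3 ((Z₀.baseChange k) (v j))]
    exact MultilinearMap.map_update_zero _ _ _

/-- A combination of elements of a space of Hodge classes. -/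
theorem hodge_of_combination {κ : Type} {C : Submodule ℚ (MultilinearMap ℚ (fun _ : κ => W) ℚ)}
    (hC : ∀ ψ ∈ C, IsHodgeTensor per ψ) {φ : MultilinearMap k (fun _ : κ => k ⊗[ℚ] W) k}
    (h : IsCombination C φ) : MTD.IsHodgeCombination per φ := by
  refine Submodule.span_mono ?_ h
  rintro φ' ⟨ψ, h1, h2⟩
  exact ⟨ψ, hC ψ h1, h2⟩

theorem combination_of_hodge {κ : Type} {C : Submodule ℚ (MultilinearMap ℚ (fun _ : κ => W) ℚ)}
    (hC : ∀ ψ, IsHodgeTensor per ψ → ψ ∈ C) {φ : MultilinearMap k (fun _ : κ => k ⊗[ℚ] W) k}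
    (h : MTD.IsHodgeCombination per φ) : IsCombination C φ := by
  refine Submodule.span_mono ?_ h
  rintro φ' ⟨ψ, h1, h2⟩
  exact ⟨ψ, hC ψ h1, h2⟩

end

variable {ℓ : ℕ} [Fact ℓ.Prime] {W T : Type} [AddCommGroup W] [Module ℚ W]
  [FiniteDimensional ℚ W] [AddCommGroup T] [Module ℂ T] (per : W →+ T)
  {Γ : Type} [Group Γ] [TopologicalSpace Γ] [IsTopologicalGroup Γ] [CompactSpace Γ]
  (ρ : Representation ℚ_[ℓ] Γ (ℚ_[ℓ] ⊗[ℚ] W)) (χ : Γ →* ℚ_[ℓ])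
  (ω₀ : W →ₗ[ℚ] W →ₗ[ℚ] ℚ)
  (ω : ℚ_[ℓ] ⊗[ℚ] W →ₗ[ℚ_[ℓ]] ℚ_[ℓ] ⊗[ℚ] W →ₗ[ℚ_[ℓ]] ℚ_[ℓ])

/-- The final statement. -/
theorem tate_final (hρ : ContinuousCoeff ρ) (hχ : Continuous χ)
    (hper : MTD.IsRationalStructure per) (hR : IsRiemannForm per ω₀)
    (hωω : ∀ u v : W, ω ((1 : ℚ_[ℓ]) ⊗ₜ[ℚ] u) ((1 : ℚ_[ℓ]) ⊗ₜ[ℚ] v) = ((ω₀ u v : ℚ) : ℚ_[ℓ]))
    (hωρ : ∀ s u v, ω (ρ s u) (ρ s v) = χ s * ω u v)
    (hss : Semisimple ρ) (hF : Faltings per ρ) (hD : Deligne per ρ χ) (hC : Centres per ρ χ)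
    (C : ∀ m : ℕ, Submodule ℚ (MultilinearMap ℚ (fun _ : Fin m × Fin 2 => W) ℚ))
    (hCH : ∀ m, ∀ ψ ∈ C m, IsHodgeTensor per ψ) :
    ∃ Θ : MultilinearMap ℚ_[ℓ] (fun _ : Fin 2 × Fin 2 => ℚ_[ℓ] ⊗[ℚ] W) ℚ_[ℓ],
      (∀ s v, Θ (fun l => ρ s (v l)) = χ s ^ 2 * Θ v) ∧
      (∀ u v w x, Θ (quad u v w x) = Θ (quad v u w x) ∧ Θ (quad u v w x) = Θ (quad u v x w) ∧
        Θ (quad u v w x) = Θ (quad w x u v)) ∧
      (∀ m, 2 ≤ m → ((∀ φ, IsTateTensor ρ χ m φ → IsCombination (C m) φ) ↔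
        (∀ ψ, IsHodgeTensor per ψ → ψ ∈ C m) ∧ MTD.IsHodgeCombination per Θ)) ∧
      (IsCombination (C 2) Θ → ∀ m, (∀ φ, IsTateTensor ρ χ m φ → IsCombination (C m) φ) ↔
        (∀ ψ, IsHodgeTensor per ψ → ψ ∈ C m)) := by
  have hωω' : ∀ u v : W, ω ((1 : ℚ_[ℓ]) ⊗ₜ[ℚ] u) ((1 : ℚ_[ℓ]) ⊗ₜ[ℚ] v) =
      algebraMap ℚ ℚ_[ℓ] (ω₀ u v) := fun u v => by rw [hωω, eq_ratCast]
  have hcomm : ∀ P : Module.End ℚ_[ℓ] (ℚ_[ℓ] ⊗[ℚ] W), (∀ X ∈ lieT ρ χ, X * P = P * X) →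
      P ∈ endos ℚ_[ℓ] per := fun P hP => hF P (exists_commute ρ χ hρ hχ hP)
  have hsemi : Semi (lieT ρ χ) := by
    refine semi_of_commutant ρ (lieT ρ χ) (fun s X hX => lieT_conj ρ χ s hX) hss
      (fun P hP X hX => ?_)
    refine MTM.lieT_comm per ρ χ ω₀ ω hper hR hωω' hωρ hD hX (hF P ?_)
    exact ⟨⊤, inferInstance, fun s _ v => hP s v⟩
  have hnt := MTM.lieT_trace per ρ χ ω₀ ω hper hR hωω' hωρ hD hC hcomm hsemi s_ros
  have halt := weil_alt per ω₀ ω hR hωω'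
  have hsp : ∀ X ∈ lieT ρ χ, ∀ u v, ω (X u) v + ω u (X v) = 0 := fun X hX u v =>
    lieT_sp ρ χ ω hωρ hX u v
  have hq : ∀ u v w x, KC2.casimir (lieT ρ χ) hnt ω (quad u v w x) =
      ω (KC2.EE (lieT ρ χ) hnt ω u v w) x := by
    intro u v w x
    rw [KC2.casimir_apply]
    rfl
  -- Hodge classes which are in the span of algebraic classes are algebraic
  have hHodge : ∀ m, (∀ φ, IsTateTensor ρ χ m φ → IsCombination (C m) φ) →
      ∀ ψ, IsHodgeTensor per ψ → ψ ∈ C m := by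
    intro m h ψ hψ
    obtain ⟨φ, hφ⟩ := exists_ext (k := ℚ_[ℓ]) ψ
    exact mem_of_combination (h φ (hD m ψ hψ φ hφ)) hφ
  have hTate : MTD.IsHodgeCombination per (KC2.casimir (lieT ρ χ) hnt ω) → ∀ m,
      (∀ ψ, IsHodgeTensor per ψ → ψ ∈ C m) →
      ∀ φ, IsTateTensor ρ χ m φ → IsCombination (C m) φ := fun hΘ m h φ hφ =>
    combination_of_hodge per h
      (all_of_casimir per ρ χ ω₀ ω hper hR hωω' hωρ hD hC hcomm hnt hΘ m φ hφ)
  refine ⟨KC2.casimir (lieT ρ χ) hnt ω, casimir_equi ρ χ ω hωρ hnt, fun u v w x => ?_,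
    fun m hm => ⟨fun h => ⟨hHodge m h, ?_⟩, fun h => hTate h.2 m h.1⟩, fun hΘ m =>
    ⟨hHodge m, hTate (hodge_of_combination per (hCH 2) hΘ) m⟩⟩
  · rw [hq, hq, hq, hq]
    exact casimir_symm (lieT ρ χ) hnt ω halt hsp u v w x
  · obtain ⟨n, rfl⟩ : ∃ n, m = 2 + n := ⟨m - 2, by omega⟩
    exact all_of_degree per ρ χ ω₀ ω hper hR hωω' hωρ hD hC hcomm hnt n
      (fun φ hφ => hodge_of_combination per (hCH (2 + n)) (h φ hφ)) 2 _
      ⟨⊤, inferInstance, fun s _ v => casimir_equi ρ χ ω hωρ hnt s v⟩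

end

end Pool.Agent.V8H91.TC
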