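import Mathlib
import Pool.Agent.V8H91.MT.Final

/-!
# The Tate conjecture, the Hodge conjecture and one quartic class
-/

set_option autoImplicit false
set_option linter.unusedSectionVars false

namespace Pool.Agent.V8H91.TC

open Module TensorProduct Pool.Agent.H204R3.SP Pool.Agent.H204R3.GP Pool.Agent.W516.MTD
  Pool.Agent.W516.DR Pool.Agent.V8H91.MT

section

variable {k : Type} [Field k] [CharZero k] {W : Type} [AddCommGroup W] [Module ℚ W]
  [FiniteDimensional ℚ W]

/-- The multilinear form `φ` on `V = k ⊗ W` is a linear combination with coefficients in `k` of the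
elements of the space `C` of rational forms. -/
def IsCombination {κ : Type} (C : Submodule ℚ (MultilinearMap ℚ (fun _ : κ => W) ℚ))
    (φ : MultilinearMap k (fun _ : κ => k ⊗[ℚ] W) k) : Prop :=
  φ ∈ Submodule.span k {φ' : MultilinearMap k (fun _ : κ => k ⊗[ℚ] W) k |
    ∃ ψ : MultilinearMap ℚ (fun _ : κ => W) ℚ, ψ ∈ C ∧
      ∀ v : κ → W, φ' (fun l => (1 : k) ⊗ₜ[ℚ] v l) = ((ψ v : ℚ) : k)}

variable {κ : Type} [Fintype κ] [DecidableEq κ]

lemma ratCast_eq (a : ℚ) : ((a : ℚ) : k) = algebraMap ℚ k a := (eq_ratCast (algebraMap ℚ k) a).symm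

/-- The components of a combination. -/
theorem fcmp_mem {C : Submodule ℚ (MultilinearMap ℚ (fun _ : κ => W) ℚ)}
    {φ : MultilinearMap k (fun _ : κ => k ⊗[ℚ] W) k} (h : IsCombination C φ)
    (lam : k →ₗ[ℚ] ℚ) : fcmp lam φ ∈ C := by
  unfold IsCombination at h
  induction h using Submodule.span_induction generalizing lam with
  | mem φ h =>
    obtain ⟨ψ, h1, h2⟩ := h
    have h3 : fcmp lam φ = lam 1 • ψ := by
      ext v
      rw [fcmp_apply, h2, MultilinearMap.smul_apply, smul_eq_mul]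
      have h4 : ((ψ v : ℚ) : k) = (ψ v) • (1 : k) := by
        rw [Algebra.smul_def, mul_one, eq_ratCast]
      rw [h4, map_smul, smul_eq_mul, mul_comm]
    rw [h3]
    exact Submodule.smul_mem _ _ h1
  | zero =>
    have h3 : fcmp lam (0 : MultilinearMap k (fun _ : κ => k ⊗[ℚ] W) k) = 0 := by
      ext v
      rw [fcmp_apply]
      exact map_zero lam
    rw [h3]
    exact Submodule.zero_mem _
  | add a b _ _ ha hb =>
    have h3 : fcmp lam (a + b) = fcmp lam a + fcmp lam b := by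
      ext v
      rw [fcmp_apply, MultilinearMap.add_apply, MultilinearMap.add_apply, map_add, fcmp_apply,
        fcmp_apply]
    rw [h3]
    exact Submodule.add_mem _ (ha lam) (hb lam)
  | smul c a _ ha =>
    have h3 : fcmp lam (c • a) = fcmp (lam ∘ₗ LinearMap.mulLeft ℚ c) a := by
      ext v
      rw [fcmp_apply, fcmp_apply, MultilinearMap.smul_apply, smul_eq_mul]
      rfl
    rw [h3]
    exact ha _

/-- A rational form whose extension is a combination of elements of `C` is in `C`. -/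
theorem mem_of_combination {C : Submodule ℚ (MultilinearMap ℚ (fun _ : κ => W) ℚ)}
    {φ : MultilinearMap k (fun _ : κ => k ⊗[ℚ] W) k} (h : IsCombination C φ)
    {ψ : MultilinearMap ℚ (fun _ : κ => W) ℚ}
    (hψ : ∀ v : κ → W, φ (fun l => (1 : k) ⊗ₜ[ℚ] v l) = ((ψ v : ℚ) : k)) : ψ ∈ C := by
  obtain ⟨lam, hlam⟩ : ∃ lam : k →ₗ[ℚ] ℚ, lam 1 = 1 := by
    have h1 := Module.forall_dual_apply_eq_zero_iff ℚ (1 : k)
    have h2 : ∃ f : Module.Dual ℚ k, f 1 ≠ 0 := by
      by_contra hcon
      push Not at hcon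
      exact one_ne_zero (h1.1 hcon)
    obtain ⟨f, hf⟩ := h2
    exact ⟨(f 1)⁻¹ • f, by rw [LinearMap.smul_apply, smul_eq_mul, inv_mul_cancel₀ hf]⟩
  have h3 : fcmp lam φ = ψ := by
    ext v
    rw [fcmp_apply, hψ]
    have h4 : ((ψ v : ℚ) : k) = (ψ v) • (1 : k) := by
      rw [Algebra.smul_def, mul_one, eq_ratCast]
    rw [h4, map_smul, smul_eq_mul, hlam, mul_one]
  rw [← h3]
  exact fcmp_mem h lam

/-- Every rational form has an extension. -/
theorem exists_ext (ψ : MultilinearMap ℚ (fun _ : κ => W) ℚ) :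
    ∃ φ : MultilinearMap k (fun _ : κ => k ⊗[ℚ] W) k,
      ∀ v : κ → W, φ (fun l => (1 : k) ⊗ₜ[ℚ] v l) = ((ψ v : ℚ) : k) := by
  refine ⟨bcm (Ω := k) (Module.finBasis ℚ W) ψ, fun v => ?_⟩
  rw [bcm_one, eq_ratCast]

end

end Pool.Agent.V8H91.TC
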