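import Pool.Agent.V8H91.TC.Main

/-!
# Products of a form with the polarization
-/

set_option autoImplicit false
set_option linter.unusedSectionVars false

namespace Pool.Agent.V8H91.TC

open Module TensorProduct Pool.Agent.H204R3.SP Pool.Agent.H204R3.GP Pool.Agent.W516.MTD
  Pool.Agent.W516.DR Pool.Agent.V8H91.MT Pool.Agent.W516.KC

section

variable {k : Type} [Field k] [CharZero k] {V : Type} [AddCommGroup V] [Module k V]
  (ω : V →ₗ[k] V →ₗ[k] k) {m : ℕ}

/-- The variables of the second factor. -/
def tl (v : Fin (m + 1) × Fin 2 → V) : Fin m × Fin 2 → V := fun l => v (l.1.succ, l.2)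

lemma tl_update_zero (v : Fin (m + 1) × Fin 2 → V) (j : Fin 2) (x : V) :
    tl (Function.update v (0, j) x) = tl v := by
  funext l
  unfold tl
  rw [Function.update_of_ne]
  intro h
  exact (Fin.succ_ne_zero l.1) (congrArg Prod.fst h)

lemma tl_update_succ (v : Fin (m + 1) × Fin 2 → V) (l : Fin m × Fin 2) (x : V) :
    tl (Function.update v (l.1.succ, l.2) x) = Function.update (tl v) l x := by
  funext l'
  unfold tl
  by_cases h : l' = l
  · subst h
    rw [Function.update_self, Function.update_self]
  · rw [Function.update_of_ne h, Function.update_of_ne]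
    intro h'
    apply h
    have h1 := Fin.succ_injective _ (congrArg Prod.fst h')
    have h2 := congrArg Prod.snd h'
    exact Prod.ext h1 h2

lemma update_succ_apply (v : Fin (m + 1) × Fin 2 → V) (l : Fin m × Fin 2) (x : V) (j : Fin 2) :
    Function.update v (l.1.succ, l.2) x (0, j) = v (0, j) := by
  rw [Function.update_of_ne]
  intro h
  exact (Fin.succ_ne_zero l.1) (congrArg Prod.fst h).symm

/-- The product of `ω` and `φ`. -/
def mulOm (φ : MultilinearMap k (fun _ : Fin m × Fin 2 => V) k) :
    MultilinearMap k (fun _ : Fin (m + 1) × Fin 2 => V) k :=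
  MultilinearMap.mk' (fun v => ω (v (0, 0)) (v (0, 1)) * φ (tl v))
    (by
      rintro v ⟨i, j⟩ x y
      refine Fin.cases ?_ (fun i => ?_) i
      · rw [tl_update_zero, tl_update_zero, tl_update_zero]
        fin_cases j
        · simp only [Fin.zero_eta, Function.update_self, map_add, LinearMap.add_apply]
          rw [Function.update_of_ne (by simp), Function.update_of_ne (by simp),
            Function.update_of_ne (by simp)]
          ring
        · simp only [Fin.mk_one, Function.update_self, map_add]
          rw [Function.update_of_ne (by simp), Function.update_of_ne (by simp),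
            Function.update_of_ne (by simp)]
          ring
      · have h := fun z : V => tl_update_succ v (i, j) z
        have h0 := fun z : V => update_succ_apply v (i, j) z
        simp only at h h0
        rw [h, h, h, MultilinearMap.map_update_add]
        simp only [h0]
        ring)
    (by
      rintro v ⟨i, j⟩ c x
      refine Fin.cases ?_ (fun i => ?_) i
      · rw [tl_update_zero, tl_update_zero]
        fin_cases j
        · simp only [Fin.zero_eta, Function.update_self, map_smul, LinearMap.smul_apply,
            smul_eq_mul]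
          rw [Function.update_of_ne (by simp), Function.update_of_ne (by simp)]
          ring
        · simp only [Fin.mk_one, Function.update_self, map_smul, smul_eq_mul]
          rw [Function.update_of_ne (by simp), Function.update_of_ne (by simp)]
          ring
      · have h := fun z : V => tl_update_succ v (i, j) z
        have h0 := fun z : V => update_succ_apply v (i, j) z
        simp only at h h0
        rw [h, h, MultilinearMap.map_update_smul]
        simp only [h0, smul_eq_mul]
        ring)

lemma mulOm_apply (φ : MultilinearMap k (fun _ : Fin m × Fin 2 => V) k)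
    (v : Fin (m + 1) × Fin 2 → V) : mulOm ω φ v = ω (v (0, 0)) (v (0, 1)) * φ (tl v) := rfl

/-- The derivation property. -/
lemma kills_mulOm {φ : MultilinearMap k (fun _ : Fin m × Fin 2 => V) k} {Z : Module.End k V}
    (hZ : ∀ u v, ω (Z u) v + ω u (Z v) = 0) (h : Kills Z (mulOm ω φ)) {x y : V}
    (hxy : ω x y ≠ 0) : Kills Z φ := by
  intro v
  let w : Fin (m + 1) × Fin 2 → V := fun l =>
    Fin.cases (motive := fun _ => V) (if l.2 = 0 then x else y) (fun i => v (i, l.2)) l.1
  have hw : tl w = v := rfl
  have hw0 : w (0, 0) = x := rfl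
  have hw1 : w (0, 1) = y := rfl
  have h1 := h w
  rw [Fintype.sum_prod_type, Fin.sum_univ_succ, Fin.sum_univ_two] at h1
  have e0 : mulOm ω φ (Function.update w (0, 0) (Z (w (0, 0)))) +
      mulOm ω φ (Function.update w (0, 1) (Z (w (0, 1)))) = 0 := by
    rw [mulOm_apply, mulOm_apply, tl_update_zero, tl_update_zero, Function.update_self,
      Function.update_self, Function.update_of_ne (by simp), Function.update_of_ne (by simp),
      ← add_mul, hZ, zero_mul]
  rw [e0, zero_add] at h1
  have e1 : ∀ (i : Fin m) (j : Fin 2), mulOm ω φ (Function.update w (i.succ, j)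
      (Z (w (i.succ, j)))) = ω x y * φ (Function.update v (i, j) (Z (v (i, j)))) := by
    intro i j
    have h2 := tl_update_succ w (i, j) (Z (w (i.succ, j)))
    have h3 := fun j' => update_succ_apply w (i, j) (Z (w (i.succ, j))) j'
    simp only at h2 h3
    rw [mulOm_apply, h2, h3, h3, hw, hw0, hw1]
    rfl
  simp only [e1] at h1
  rw [Fintype.sum_prod_type]
  have h4 : ω x y * ∑ i, ∑ j, φ (Function.update v (i, j) (Z (v (i, j)))) = 0 := by
    rw [Finset.mul_sum, ← h1]
    exact Finset.sum_congr rfl fun i _ => by rw [Finset.mul_sum]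
  exact (mul_eq_zero.1 h4).resolve_left hxy

variable {Γ : Type} [Group Γ] (ρ : Representation k Γ V) (χ : Γ →* k)

lemma tate_mulOm (hωρ : ∀ s u v, ω (ρ s u) (ρ s v) = χ s * ω u v)
    {φ : MultilinearMap k (fun _ : Fin m × Fin 2 => V) k} (h : IsTateTensor ρ χ m φ) :
    IsTateTensor ρ χ (m + 1) (mulOm ω φ) := by
  obtain ⟨Δ, hΔ, h1⟩ := h
  refine ⟨Δ, hΔ, fun s hs v => ?_⟩
  rw [mulOm_apply, mulOm_apply, hωρ]
  have h2 : tl (fun l => ρ s (v l)) = fun l => ρ s (tl v l) := rfl
  rw [h2, h1 s hs]
  ring

/-- Iterated products. -/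
def mulOmN (φ : MultilinearMap k (fun _ : Fin 2 × Fin 2 => V) k) :
    ∀ n : ℕ, MultilinearMap k (fun _ : Fin (2 + n) × Fin 2 => V) k
  | 0 => φ
  | n + 1 => mulOm ω (mulOmN φ n)

lemma tate_mulOmN (hωρ : ∀ s u v, ω (ρ s u) (ρ s v) = χ s * ω u v)
    {φ : MultilinearMap k (fun _ : Fin 2 × Fin 2 => V) k} (h : IsTateTensor ρ χ 2 φ) :
    ∀ n : ℕ, IsTateTensor ρ χ (2 + n) (mulOmN ω φ n)
  | 0 => h
  | n + 1 => tate_mulOm ω ρ χ hωρ (tate_mulOmN hωρ h n)

lemma kills_mulOmN {Z : Module.End k V} (hZ : ∀ u v, ω (Z u) v + ω u (Z v) = 0) {x y : V}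
    (hxy : ω x y ≠ 0) {φ : MultilinearMap k (fun _ : Fin 2 × Fin 2 => V) k} :
    ∀ n : ℕ, Kills Z (mulOmN ω φ n) → Kills Z φ
  | 0, h => h
  | n + 1, h => kills_mulOmN hZ hxy n (kills_mulOm ω hZ h hxy)

end

end Pool.Agent.V8H91.TC
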